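import Pool.Agent.Helper63.P705.NUM.Goals

/-!
# MP_705522_gt: packet N8 (extraction of the digits)
-/

namespace Pool.Agent.Helper79.P705

open Pool.Agent.Helper63.P705

theorem shl (a b : ℕ) : Nat.shiftLeft a b = a * 2 ^ b := Nat.shiftLeft_eq a b

theorem shr (a b : ℕ) : Nat.shiftRight a b = a / 2 ^ b := Nat.shiftRight_eq_div_pow a b

theorem landm (a m : ℕ) : Nat.land a (2 ^ m - 1) = a % 2 ^ m := Nat.and_two_pow_sub_one_eq_mod _ _

theorem lp_congr {n : ℕ} {f g : ℕ → ℕ → ℕ} (h : ∀ i s, i < n → f i s = g i s) (a : ℕ) :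
    lp n f a = lp n g a := by
  induction n generalizing a with
  | zero => rfl
  | succ n ih =>
    rw [lp_succ, lp_succ, h n a (Nat.lt_succ_self n)]
    exact ih (fun i s hi => h i s (Nat.lt_succ_of_lt hi)) _

/-- Horner loop modulo a power of two -/
theorem lp_dig (n w m : ℕ) (f : ℕ → ℕ) (a : ℕ) (ha : a < 2 ^ m) :
    lp n (fun i s => (s * 2 ^ w + f i) % 2 ^ m) a =
      (a * 2 ^ (w * n) + ∑ i ∈ Finset.range n, f i * 2 ^ (w * i)) % 2 ^ m := by
  induction n generalizing a with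
  | zero => simp [Nat.mod_eq_of_lt ha]
  | succ n ih =>
    rw [lp_succ, ih _ (Nat.mod_lt _ (by positivity)), Finset.sum_range_succ]
    rw [Nat.add_mod, Nat.mul_mod, Nat.mod_mod, ← Nat.mul_mod, ← Nat.add_mod]
    congr 1
    rw [mul_add, mul_one, pow_add]
    ring

/-- Horner loop without reduction -/
theorem lp_dig0 (n w : ℕ) (f : ℕ → ℕ) (a : ℕ) :
    lp n (fun i s => s * 2 ^ w + f i) a =
      a * 2 ^ (w * n) + ∑ i ∈ Finset.range n, f i * 2 ^ (w * i) := by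
  induction n generalizing a with
  | zero => simp
  | succ n ih =>
    rw [lp_succ, ih _, Finset.sum_range_succ]
    rw [mul_add, mul_one, pow_add]
    ring

theorem lp_digz (n w m : ℕ) (f : ℕ → ℕ) :
    lp n (fun i s => (s * 2 ^ w + f i) % 2 ^ m) 0 =
      (∑ i ∈ Finset.range n, f i * 2 ^ (w * i)) % 2 ^ m := by
  have h := lp_dig n w m f 0 (by positivity)
  rw [zero_mul, zero_add] at h
  exact h

theorem lp_dig0z (n w : ℕ) (f : ℕ → ℕ) :
    lp n (fun i s => s * 2 ^ w + f i) 0 = ∑ i ∈ Finset.range n, f i * 2 ^ (w * i) := by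
  have h := lp_dig0 n w f 0
  rw [zero_mul, zero_add] at h
  exact h

theorem lp_key (w m : ℕ) (n : ℕ) (g : ℕ → ℕ) :
    lp n (fun i s => Nat.land (Nat.add (Nat.shiftLeft s w) (g i)) (Nat.sub (2 ^ m) 1)) 0 =
      (∑ i ∈ Finset.range n, g i * 2 ^ (w * i)) % 2 ^ m := by
  have h := lp_digz n w m g
  refine Eq.trans ?_ h
  refine lp_congr ?_ 0
  intro i s _
  show Nat.land (Nat.shiftLeft s w + g i) (2 ^ m - 1) = _
  rw [landm, shl]

theorem offH_eq : offH = ∑ i ∈ Finset.range 18, 2 ^ 1023 * 2 ^ (1024 * i) := by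
  have h := lp_dig0z 18 1024 (fun _ => 2 ^ 1023)
  refine Eq.trans ?_ h
  unfold offH
  refine lp_congr ?_ 0
  intro i s _
  show Nat.shiftLeft s 1024 + Nat.shiftLeft 1 1023 = _
  rw [shl, shl, one_mul]

theorem fld_mod (T w n i : ℕ) (hi : i < n) : fld (T % 2 ^ (w * n)) w i = fld T w i := by
  rw [fld_eq, fld_eq, ← Nat.mod_mul_right_div_self, ← Nat.mod_mul_right_div_self, ← pow_add]
  congr 1
  apply Nat.mod_mod_of_dvd
  apply pow_dvd_pow
  calc w * i + w = w * (i + 1) := by ring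
    _ ≤ w * n := Nat.mul_le_mul_left _ hi

/-- the digits of `acc + offH` -/
theorem dig_val (c : ℕ → ℤ) (acc : ℕ) (hc : ∀ i < 18, |c i| < 2 ^ 1023)
    (hacc : (acc : ℤ) = (∑ i ∈ Finset.range 18, c i * 2 ^ (1024 * i)) % 2 ^ 18432) (i : ℕ)
    (hi : i < 18) : (fld (acc + offH) 1024 i : ℤ) = c i + 2 ^ 1023 := by
  have hpos : ∀ k < 18, 0 ≤ c k + 2 ^ 1023 := by
    intro k hk
    have := (abs_lt.1 (hc k hk)).1
    linarith
  have hlt : ∀ k < 18, (c k + 2 ^ 1023).toNat < 2 ^ 1024 := by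
    intro k hk
    have h1 := (abs_lt.1 (hc k hk)).2
    have h2 : ((c k + 2 ^ 1023).toNat : ℤ) = c k + 2 ^ 1023 := Int.toNat_of_nonneg (hpos k hk)
    have h3 : ((2 : ℤ) ^ 1024) = 2 ^ 1023 + 2 ^ 1023 := by
      rw [← two_mul, ← pow_succ']
    have h4 : ((c k + 2 ^ 1023).toNat : ℤ) < ((2 ^ 1024 : ℕ) : ℤ) := by
      rw [h2]; push_cast; rw [h3]; linarith
    exact_mod_cast h4
  set E : ℕ := ∑ k ∈ Finset.range 18, (c k + 2 ^ 1023).toNat * 2 ^ (1024 * k) with hE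
  have h1 : fld E 1024 i = (c i + 2 ^ 1023).toNat := fld_sum 1024 18 _ hlt i hi
  have hEc : (E : ℤ) = ∑ k ∈ Finset.range 18, c k * 2 ^ (1024 * k) + (offH : ℤ) := by
    rw [hE, offH_eq]
    push_cast
    rw [← Finset.sum_add_distrib]
    apply Finset.sum_congr rfl
    intro k hk
    rw [Int.toNat_of_nonneg (hpos k (Finset.mem_range.1 hk))]
    ring
  have h2 : (acc + offH) % 2 ^ (1024 * 18) = E % 2 ^ (1024 * 18) := by
    have h3 : (((acc + offH : ℕ) : ℤ)) % 2 ^ 18432 = (E : ℤ) % 2 ^ 18432 := by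
      rw [hEc]
      push_cast
      rw [hacc, Int.emod_add_emod]
    have h5 : (1024 * 18 : ℕ) = 18432 := by norm_num
    rw [h5]
    have h4 : (((acc + offH) % 2 ^ 18432 : ℕ) : ℤ) = ((E % 2 ^ 18432 : ℕ) : ℤ) := by
      rw [Int.natCast_mod, Int.natCast_mod]
      push_cast at h3 ⊢
      exact h3
    exact_mod_cast h4
  rw [← fld_mod _ 1024 18 i hi, h2, fld_mod _ 1024 18 i hi, h1,
    Int.toNat_of_nonneg (hpos i hi)]

theorem shift_div (m : ℕ) (e : ℕ) (c : ℤ) (he : (e : ℤ) = c + 2 ^ 1023) (sh : ℕ) (hsh : sh ≤ 1023) :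
    ((m * e / 2 ^ sh : ℕ) : ℤ) = m * c / 2 ^ sh + m * 2 ^ (1023 - sh) := by
  rw [Int.natCast_div]
  push_cast
  rw [he]
  have h1 : (2 : ℤ) ^ 1023 = 2 ^ (1023 - sh) * 2 ^ sh := by
    rw [← pow_add]
    congr 1
    omega
  rw [h1, mul_add, ← mul_assoc, Int.add_mul_ediv_right _ _ (by positivity)]

theorem shift_div0 (m : ℕ) (sh : ℕ) (hsh : sh ≤ 1023) :
    m * 2 ^ 1023 / 2 ^ sh = m * 2 ^ (1023 - sh) := by
  have h1 : (2 : ℕ) ^ 1023 = 2 ^ (1023 - sh) * 2 ^ sh := by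
    rw [← pow_add]
    congr 1
    omega
  rw [h1, ← mul_assoc, Nat.mul_div_cancel _ (by positivity)]

theorem flo_val (M m e : ℕ) (c : ℤ) (he : (e : ℤ) = c + 2 ^ 1023) (sh : ℕ) (hsh : sh ≤ 1023)
    (hM : m * 2 ^ 1023 ≤ M) : (flo M e m sh : ℤ) = M + m * c / 2 ^ sh := by
  have h0 : flo M e m sh = (M + m * e / 2 ^ sh) - (m * 2 ^ 1023) / 2 ^ sh := by
    show (M + Nat.shiftRight (Nat.mul m e) sh) - Nat.shiftRight (Nat.shiftLeft m 1023) sh = _
    rw [shr, shr, shl]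
    rfl
  have h1 : (m * 2 ^ 1023) / 2 ^ sh ≤ M + m * e / 2 ^ sh :=
    (Nat.div_le_self _ _).trans (hM.trans (Nat.le_add_right _ _))
  rw [h0, Nat.cast_sub h1, Nat.cast_add, shift_div m e c he sh hsh, shift_div0 m sh hsh]
  push_cast
  ring

theorem fln_val (M m e : ℕ) (c : ℤ) (he : (e : ℤ) = c + 2 ^ 1023) (sh : ℕ) (hsh : sh ≤ 1023)
    (hM : m * e ≤ M) : (fln M e m sh : ℤ) = M + -(m * c / 2 ^ sh) := by
  have h0 : fln M e m sh = (M + (m * 2 ^ 1023) / 2 ^ sh) - m * e / 2 ^ sh := by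
    show (M + Nat.shiftRight (Nat.shiftLeft m 1023) sh) - Nat.shiftRight (Nat.mul m e) sh = _
    rw [shr, shr, shl]
    rfl
  have h1 : m * e / 2 ^ sh ≤ M + (m * 2 ^ 1023) / 2 ^ sh :=
    (Nat.div_le_self _ _).trans (hM.trans (Nat.le_add_right _ _))
  rw [h0, Nat.cast_sub h1, Nat.cast_add, shift_div m e c he sh hsh, shift_div0 m sh hsh]
  push_cast
  ring

theorem digs_eq (off acc J lam : ℕ) : digs off acc J lam =
    (∑ i ∈ Finset.range 18, flo (2 ^ 3888) (fld (acc + off) 1024 i) 1 (7 * J + 100 - 192 + lam * i) *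
      2 ^ (216 * i)) % 2 ^ 3888 +
    (((∑ i ∈ Finset.range 17, fln (2 ^ 3888) (fld (acc + off) 1024 (i + 1)) (4 * (i + 1))
      (7 * J + 100 - 192 + lam * i) * 2 ^ (216 * i)) % 2 ^ 3888) * 2 ^ 7776 +
    ((∑ i ∈ Finset.range 16, fln (2 ^ 3888) (fld (acc + off) 1024 (i + 2)) (8 * ((i + 2) * (i + 1)))
      (7 * J + 100 - 192 + lam * i) * 2 ^ (216 * i)) % 2 ^ 3888) * 2 ^ 15552) := by
  have hM : Nat.shiftLeft 1 3888 = 2 ^ 3888 := by rw [shl, one_mul]
  have hb : Nat.sub (Nat.add 100 (Nat.mul 7 J)) 192 = 7 * J + 100 - 192 := by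
    show 100 + 7 * J - 192 = _
    rw [add_comm]
  have key := lp_key 216 3888
  unfold digs
  simp only [sq_eq]
  rw [hM, hb, key, key, key, shl, shl]
  rfl

theorem n8 : N8 := by
  intro c acc J lam hJ1 hJ2 hlam hc hacc
  have hdig := dig_val c acc hc hacc
  have hup : ∀ i < 18, fld (acc + offH) 1024 i ≤ 2 ^ 1024 := by
    intro i hi
    rw [fld_eq]
    exact (Nat.mod_lt _ (by positivity)).le
  have hsh : ∀ i < 18, 7 * J + 100 - 192 + lam * i ≤ 1023 := by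
    intro i hi
    have : lam * i ≤ 8 * 17 := Nat.mul_le_mul hlam (by omega)
    omega
  have hMz : ((2 ^ 3888 : ℕ) : ℤ) = 2 ^ 3888 := by push_cast; rfl
  have red : ∀ (n : ℕ) (g : ℕ → ℕ) (v : ℕ → ℤ), (∀ i < n, (g i : ℤ) = (2 ^ 3888 : ℕ) + v i) →
      (((∑ i ∈ Finset.range n, g i * 2 ^ (216 * i)) % 2 ^ 3888 : ℕ) : ℤ) =
        (∑ i ∈ Finset.range n, v i * 2 ^ (216 * i)) % 2 ^ 3888 := by
    intro n g v h
    rw [Int.natCast_mod, Nat.cast_sum, hMz]
    have h1 : ∑ i ∈ Finset.range n, ((g i * 2 ^ (216 * i) : ℕ) : ℤ) =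
        ∑ i ∈ Finset.range n, v i * 2 ^ (216 * i) +
          2 ^ 3888 * ∑ i ∈ Finset.range n, (2 : ℤ) ^ (216 * i) := by
      rw [Finset.mul_sum, ← Finset.sum_add_distrib]
      apply Finset.sum_congr rfl
      intro i hi
      rw [Nat.cast_mul, h i (Finset.mem_range.1 hi), hMz]
      push_cast
      ring
    rw [h1, Int.add_mul_emod_self_left]
  have e0 := red 18 (fun i => flo (2 ^ 3888) (fld (acc + offH) 1024 i) 1
    (7 * J + 100 - 192 + lam * i)) (fun i => nI c J lam 0 i) (by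
      intro i hi
      have h := flo_val (2 ^ 3888) 1 _ (c i) (hdig i hi) _ (hsh i hi)
        (by rw [one_mul]; exact Nat.pow_le_pow_right (by norm_num) (by norm_num))
      show ((flo (2 ^ 3888) (fld (acc + offH) 1024 i) 1 (7 * J + 100 - 192 + lam * i) : ℕ) : ℤ) = _
      rw [h]
      unfold nI
      rw [if_pos rfl, Nat.cast_one, one_mul])
  have hbig : ∀ m ≤ 2 ^ 20, m * 2 ^ 1024 ≤ 2 ^ 3888 := by
    intro m hm
    calc m * 2 ^ 1024 ≤ 2 ^ 20 * 2 ^ 1024 := Nat.mul_le_mul_right _ hm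
      _ = 2 ^ 1044 := by rw [← pow_add]
      _ ≤ 2 ^ 3888 := Nat.pow_le_pow_right (by norm_num) (by norm_num)
  have e1 := red 17 (fun i => fln (2 ^ 3888) (fld (acc + offH) 1024 (i + 1)) (4 * (i + 1))
    (7 * J + 100 - 192 + lam * i)) (fun i => nI c J lam 1 i) (by
      intro i hi
      have h := fln_val (2 ^ 3888) (4 * (i + 1)) _ (c (i + 1)) (hdig (i + 1) (by omega)) _
        (hsh i (by omega)) ((Nat.mul_le_mul_left _ (hup (i + 1) (by omega))).trans
          (hbig _ (by omega)))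
      show ((fln (2 ^ 3888) (fld (acc + offH) 1024 (i + 1)) (4 * (i + 1))
        (7 * J + 100 - 192 + lam * i) : ℕ) : ℤ) = _
      rw [h]
      unfold nI
      rw [if_neg (by norm_num), if_pos rfl]
      push_cast
      rfl)
  have e2 := red 16 (fun i => fln (2 ^ 3888) (fld (acc + offH) 1024 (i + 2))
    (8 * ((i + 2) * (i + 1))) (7 * J + 100 - 192 + lam * i)) (fun i => nI c J lam 2 i) (by
      intro i hi
      have hm : 8 * ((i + 2) * (i + 1)) ≤ 2 ^ 20 := by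
        have : (i + 2) * (i + 1) ≤ 17 * 16 := Nat.mul_le_mul (by omega) (by omega)
        omega
      have h := fln_val (2 ^ 3888) (8 * ((i + 2) * (i + 1))) _ (c (i + 2)) (hdig (i + 2) (by omega)) _
        (hsh i (by omega)) ((Nat.mul_le_mul_left _ (hup (i + 2) (by omega))).trans
          (hbig _ hm))
      show ((fln (2 ^ 3888) (fld (acc + offH) 1024 (i + 2)) (8 * ((i + 2) * (i + 1)))
        (7 * J + 100 - 192 + lam * i) : ℕ) : ℤ) = _
      rw [h]
      unfold nI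
      rw [if_neg (by norm_num), if_neg (by norm_num)]
      push_cast
      rfl)
  rw [digs_eq, Nat.cast_add, Nat.cast_add, Nat.cast_mul, Nat.cast_mul, e0, e1, e2]
  have hs : ∀ F : ℕ → ℤ, ∑ t ∈ Finset.range 3, F t = F 0 + F 1 + F 2 := by
    intro F
    rw [Finset.sum_range_succ, Finset.sum_range_succ, Finset.sum_range_one]
  rw [hs]
  have p0 : (7776 * 0 : ℕ) = 0 := by norm_num
  have p1 : (7776 * 1 : ℕ) = 7776 := by norm_num
  have p2 : (7776 * 2 : ℕ) = 15552 := by norm_num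
  have q1 : (18 - 1 : ℕ) = 17 := by norm_num
  have q2 : (18 - 2 : ℕ) = 16 := by norm_num
  rw [p0, p1, p2, q1, q2, Nat.sub_zero, pow_zero, mul_one]
  push_cast
  ring

end Pool.Agent.Helper79.P705
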